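import Mathlib

set_option autoImplicit false

open Matrix
open scoped ComplexOrder Kronecker

namespace Pool.Agent.MP_2a866c_an.H83

/-- Woronowicz's positive map from `M_2` to `M_4`. -/
def W (X : Matrix (Fin 2) (Fin 2) ℂ) : Matrix (Fin 4) (Fin 4) ℂ :=
  !![4 * X 0 0 - 2 * (X 0 1 + X 1 0) + 3 * X 1 1, -2 * X 0 0 + 2 * X 1 0, 0, 0;
     -2 * X 0 0 + 2 * X 0 1, 2 * X 0 0, X 1 0, 0;
     0, X 0 1, 2 * X 1 1, -2 * X 1 0 - X 1 1;
     0, 0, -2 * X 0 1 - X 1 1, 4 * X 0 0 + 2 * X 1 1]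

theorem W_add (X Y : Matrix (Fin 2) (Fin 2) ℂ) : W (X + Y) = W X + W Y := by
  ext i j
  fin_cases i <;> fin_cases j <;> simp [W] <;> ring

theorem W_smul (c : ℂ) (X : Matrix (Fin 2) (Fin 2) ℂ) : W (c • X) = c • W X := by
  ext i j
  fin_cases i <;> fin_cases j <;> simp [W] <;> ring

theorem W_conjTranspose (X : Matrix (Fin 2) (Fin 2) ℂ) : (W X)ᴴ = W Xᴴ := by
  ext i j
  fin_cases i <;> fin_cases j <;> simp [W, conjTranspose_apply]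
  ring

theorem W_det (X : Matrix (Fin 2) (Fin 2) ℂ) (h : X.det = 0) : (W X).det = 0 := by
  rw [det_fin_two] at h
  have : (W X).det = (X 0 0 * X 1 1 - X 0 1 * X 1 0) *
      ((4 * X 0 0 - 2 * (X 0 1 + X 1 0) + 3 * X 1 1) * (4 * X 0 0 + 2 * X 1 1) +
        4 * (X 0 0 * (4 * X 0 0 + 2 * X 1 1) +
          X 1 1 * (4 * X 0 0 - 2 * (X 0 1 + X 1 0) + 3 * X 1 1)) +
        16 * (X 0 0 * X 1 1 - X 0 1 * X 1 0)) := by
    simp [W, det_succ_row_zero, Fin.sum_univ_succ, Fin.succAbove]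
    ring
  rw [this, h, zero_mul]

/-- The real inequality behind positivity. -/
theorem real_ineq (x w p q a1 b1 a2 b2 a3 b3 a4 b4 : ℝ) (hx : 0 ≤ x) (hw : 0 ≤ w)
    (hd : 0 ≤ x * w - (p ^ 2 + q ^ 2))
    (hform : ∀ s t u v : ℝ, 0 ≤ x * (s ^ 2 + t ^ 2) + w * (u ^ 2 + v ^ 2) +
      2 * (p * (s * u + t * v) - q * (s * v - t * u))) :
    0 ≤ (4 * x - 4 * p + 3 * w) * (a1 ^ 2 + b1 ^ 2) + 2 * x * (a2 ^ 2 + b2 ^ 2) +
      2 * w * (a3 ^ 2 + b3 ^ 2) + (4 * x + 2 * w) * (a4 ^ 2 + b4 ^ 2) +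
      2 * ((-2 * x + 2 * p) * (a1 * a2 + b1 * b2) + 2 * q * (a1 * b2 - b1 * a2)) +
      2 * (p * (a2 * a3 + b2 * b3) + q * (a2 * b3 - b2 * a3)) +
      2 * ((-2 * p - w) * (a3 * a4 + b3 * b4) - 2 * q * (a3 * b4 - b3 * a4)) := by
  have h1 := hform 2 0 (-1) 0
  rcases eq_or_lt_of_le (add_nonneg hx hw) with h0 | h0
  · have hx0 : x = 0 := by linarith
    have hw0 : w = 0 := by linarith
    subst hx0 hw0
    have hp : p = 0 := by nlinarith [sq_nonneg p, sq_nonneg q]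
    have hq : q = 0 := by nlinarith [sq_nonneg p, sq_nonneg q]
    subst hp hq
    simp
  have hd4 : 0 < 4 * x + 2 * w := by linarith
  have hd1 : 0 < 4 * x - 4 * p + 3 * w := by
    rcases eq_or_lt_of_le hw with hw0 | hw0
    · subst hw0
      have hp : p = 0 := by nlinarith [sq_nonneg p, sq_nonneg q]
      subst hp
      linarith
    · nlinarith
  set d1 := 4 * x - 4 * p + 3 * w with hd1def
  set d4 := 4 * x + 2 * w with hd4def
  have h2 := hform (d4 * a2) (-(d4 * b2)) (d1 * a3) (-(d1 * b3))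
  refine nonneg_of_mul_nonneg_right (a := d1 * d4) ?_ (mul_pos hd1 hd4)
  have e : d1 * d4 * (d1 * (a1 ^ 2 + b1 ^ 2) + 2 * x * (a2 ^ 2 + b2 ^ 2) +
      2 * w * (a3 ^ 2 + b3 ^ 2) + d4 * (a4 ^ 2 + b4 ^ 2) +
      2 * ((-2 * x + 2 * p) * (a1 * a2 + b1 * b2) + 2 * q * (a1 * b2 - b1 * a2)) +
      2 * (p * (a2 * a3 + b2 * b3) + q * (a2 * b3 - b2 * a3)) +
      2 * ((-2 * p - w) * (a3 * a4 + b3 * b4) - 2 * q * (a3 * b4 - b3 * a4))) =
      d4 * ((d1 * a1 + (-2 * x + 2 * p) * a2 + 2 * q * b2) ^ 2 +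
        (d1 * b1 + (-2 * x + 2 * p) * b2 - 2 * q * a2) ^ 2) +
      d1 * ((d4 * a4 + (-2 * p - w) * a3 + 2 * q * b3) ^ 2 +
        (d4 * b4 + (-2 * p - w) * b3 - 2 * q * a3) ^ 2) +
      (x * ((d4 * a2) ^ 2 + (-(d4 * b2)) ^ 2) + w * ((d1 * a3) ^ 2 + (-(d1 * b3)) ^ 2) +
        2 * (p * (d4 * a2 * (d1 * a3) + -(d4 * b2) * -(d1 * b3)) -
          q * (d4 * a2 * -(d1 * b3) - -(d4 * b2) * (d1 * a3)))) +
      4 * (x * w - (p ^ 2 + q ^ 2)) * (d4 * (a2 ^ 2 + b2 ^ 2) + d1 * (a3 ^ 2 + b3 ^ 2)) := by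
    rw [hd1def, hd4def]
    ring
  rw [e]
  positivity

theorem W_psd {X : Matrix (Fin 2) (Fin 2) ℂ} (hX : X.PosSemidef) : (W X).PosSemidef := by
  have hH := hX.isHermitian
  have h00 : (X 0 0).im = 0 := by
    have := (Complex.nonneg_iff.1 (hX.diag_nonneg (i := 0))).2
    exact this.symm
  have h11 : (X 1 1).im = 0 := by
    have := (Complex.nonneg_iff.1 (hX.diag_nonneg (i := 1))).2
    exact this.symm
  have h10 : X 1 0 = star (X 0 1) := (hH.apply 1 0).symm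
  have h10re : (X 1 0).re = (X 0 1).re := by rw [h10]; simp
  have h10im : (X 1 0).im = -(X 0 1).im := by rw [h10]; simp
  have hx := (Complex.nonneg_iff.1 (hX.diag_nonneg (i := 0))).1
  have hw := (Complex.nonneg_iff.1 (hX.diag_nonneg (i := 1))).1
  have hdet := (Complex.nonneg_iff.1 hX.det_nonneg).1
  rw [det_fin_two] at hdet
  simp only [Complex.sub_re, Complex.mul_re, h00, h11, h10re, h10im] at hdet
  have hform : ∀ s t u v : ℝ, 0 ≤ (X 0 0).re * (s ^ 2 + t ^ 2) + (X 1 1).re * (u ^ 2 + v ^ 2) +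
      2 * ((X 0 1).re * (s * u + t * v) - (X 0 1).im * (s * v - t * u)) := by
    intro s t u v
    have := (Complex.nonneg_iff.1 (hX.dotProduct_mulVec_nonneg ![⟨s, t⟩, ⟨u, v⟩])).1
    simp [dotProduct, mulVec, Fin.sum_univ_two, h00, h11, h10re, h10im] at this
    linarith
  refine PosSemidef.of_dotProduct_mulVec_nonneg ?_ fun ξ => ?_
  · show (W X)ᴴ = W X
    rw [W_conjTranspose, hH.eq]
  · have := real_ineq (X 0 0).re (X 1 1).re (X 0 1).re (X 0 1).im (ξ 0).re (ξ 0).im (ξ 1).re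
      (ξ 1).im (ξ 2).re (ξ 2).im (ξ 3).re (ξ 3).im hx hw (by linarith) hform
    rw [Complex.nonneg_iff]
    constructor
    · simp [W, dotProduct, mulVec, Fin.sum_univ_four, h00, h11, h10re, h10im]
      linarith
    · simp [W, dotProduct, mulVec, Fin.sum_univ_four, h00, h11, h10re, h10im]
      ring

theorem exists_S : ∃ S : Matrix (Fin 4) (Fin 4) ℂ, Sᴴ * W 1 * S = 1 := by
  obtain ⟨p, hp⟩ : ∃ p : ℝ, 5 * (p * p) = 1 :=
    ⟨Real.sqrt (1 / 5), by rw [Real.mul_self_sqrt (by norm_num)]; norm_num⟩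
  obtain ⟨q, hq⟩ : ∃ q : ℝ, 2 * (q * q) = 1 :=
    ⟨Real.sqrt (1 / 2), by rw [Real.mul_self_sqrt (by norm_num)]; norm_num⟩
  obtain ⟨r, hr⟩ : ∃ r : ℝ, 22 * (r * r) = 1 :=
    ⟨Real.sqrt (1 / 22), by rw [Real.mul_self_sqrt (by norm_num)]; norm_num⟩
  have hp' : (5 : ℂ) * ((p : ℂ) * p) = 1 := by exact_mod_cast hp
  have hq' : (2 : ℂ) * ((q : ℂ) * q) = 1 := by exact_mod_cast hq
  have hr' : (22 : ℂ) * ((r : ℂ) * r) = 1 := by exact_mod_cast hr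
  refine ⟨!![p, 0, 0, 0; p, q, 0, 0; 0, 0, q, r; 0, 0, 0, r + r], ?_⟩
  ext i j
  fin_cases i <;> fin_cases j <;>
    simp [W, mul_apply, Fin.sum_univ_four, conjTranspose_apply] <;>
    first
      | ring1
      | linear_combination hp'
      | linear_combination hq'
      | linear_combination hr'
      | (left; ring1)

/-- The rank one matrices. -/
def P (a : ℂ) : Matrix (Fin 2) (Fin 2) ℂ := !![1, star a; a, a * star a]

theorem P_psd (a : ℂ) : (P a).PosSemidef := by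
  have := posSemidef_vecMulVec_self_star ![1, a]
  convert this using 1
  ext i j
  fin_cases i <;> fin_cases j <;> simp [P, vecMulVec]

/-- The kernel vectors. -/
def ker (a : ℂ) : Fin 4 → ℂ :=
  ![2 * a * (1 - a), a * (4 - 2 * (a + star a) + 3 * (a * star a)), -4 - 2 * (a * star a),
    -(star a) * (2 + a)]

theorem W_ker (a : ℂ) : W (P a) *ᵥ ker a = 0 := by
  ext i
  fin_cases i <;> simp [W, P, ker, dotProduct, mulVec, Fin.sum_univ_four] <;> ring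

theorem span_conj (u v : Fin 4 → ℂ) (h : ∀ a : ℂ, u ⬝ᵥ ker a + star a * (v ⬝ᵥ ker a) = 0) :
    u = 0 ∧ v = 0 := by
  have h1 := h ⟨0, 0⟩
  have h2 := h ⟨1, 0⟩
  have h3 := h ⟨-1, 0⟩
  have h4 := h ⟨0, 1⟩
  have h5 := h ⟨0, -1⟩
  have h6 := h ⟨2, 0⟩
  have h7 := h ⟨1, 1⟩
  have h8 := h ⟨1, -1⟩
  have h9 := h ⟨-1, 1⟩
  have h10 := h ⟨0, 2⟩
  simp [ker, dotProduct, Fin.sum_univ_four, Complex.ext_iff] at h1 h2 h3 h4 h5 h6 h7 h8 h9 h10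
  obtain ⟨h1, h1'⟩ := h1
  obtain ⟨h2, h2'⟩ := h2
  obtain ⟨h3, h3'⟩ := h3
  obtain ⟨h4, h4'⟩ := h4
  obtain ⟨h5, h5'⟩ := h5
  obtain ⟨h6, h6'⟩ := h6
  obtain ⟨h7, h7'⟩ := h7
  obtain ⟨h8, h8'⟩ := h8
  obtain ⟨h9, h9'⟩ := h9
  obtain ⟨h10, h10'⟩ := h10
  constructor <;> ext i <;> fin_cases i <;> simp [Complex.ext_iff] <;> constructor <;> linarith

theorem span_self (u v : Fin 4 → ℂ) (h : ∀ a : ℂ, u ⬝ᵥ ker a + a * (v ⬝ᵥ ker a) = 0) :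
    u = 0 ∧ v = 0 := by
  have h1 := h ⟨0, 0⟩
  have h2 := h ⟨1, 0⟩
  have h3 := h ⟨-1, 0⟩
  have h4 := h ⟨0, 1⟩
  have h5 := h ⟨0, -1⟩
  have h6 := h ⟨2, 0⟩
  have h7 := h ⟨1, 1⟩
  have h8 := h ⟨1, -1⟩
  have h9 := h ⟨-1, 1⟩
  have h10 := h ⟨0, 2⟩
  simp [ker, dotProduct, Fin.sum_univ_four, Complex.ext_iff] at h1 h2 h3 h4 h5 h6 h7 h8 h9 h10
  obtain ⟨h1, h1'⟩ := h1
  obtain ⟨h2, h2'⟩ := h2
  obtain ⟨h3, h3'⟩ := h3
  obtain ⟨h4, h4'⟩ := h4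
  obtain ⟨h5, h5'⟩ := h5
  obtain ⟨h6, h6'⟩ := h6
  obtain ⟨h7, h7'⟩ := h7
  obtain ⟨h8, h8'⟩ := h8
  obtain ⟨h9, h9'⟩ := h9
  obtain ⟨h10, h10'⟩ := h10
  constructor <;> ext i <;> fin_cases i <;> simp [Complex.ext_iff] <;> constructor <;> linarith

end Pool.Agent.MP_2a866c_an.H83
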