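import Mathlib
import Pool.Agent.MP_2a866c_an.H83.Woron

set_option autoImplicit false

open Matrix
open scoped ComplexOrder Kronecker

namespace Pool.Agent.MP_2a866c_an.H83

theorem psd_fromBlocks {m n : Type} [Fintype m] [Fintype n] {A : Matrix m m ℂ} {D : Matrix n n ℂ}
    (hA : A.PosSemidef) (hD : D.PosSemidef) : (fromBlocks A 0 0 D).PosSemidef := by
  refine PosSemidef.of_dotProduct_mulVec_nonneg ?_ fun v => ?_
  · exact IsHermitian.fromBlocks hA.isHermitian (by simp) hD.isHermitian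
  · have hv : v = Sum.elim (v ∘ Sum.inl) (v ∘ Sum.inr) := by
      ext (i | i) <;> rfl
    rw [hv, fromBlocks_mulVec, Function.star_sumElim, sumElim_dotProduct_sumElim]
    simp only [Sum.elim_comp_inl, Sum.elim_comp_inr, zero_mulVec, add_zero, zero_add]
    exact add_nonneg (hA.dotProduct_mulVec_nonneg _) (hD.dotProduct_mulVec_nonneg _)

/-- The first two block rows of `V` vanish. -/
theorem blocks_vanish {α β ζ : ℕ} (S : Matrix (Fin 4) (Fin 4) ℂ) (hS : Sᴴ * W 1 * S = 1)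
    (V : Matrix ((Fin 2 × Fin α) ⊕ ((Fin 2 × Fin β) ⊕ Fin ζ)) (Fin 4) ℂ)
    (F : ℂ → Matrix (Fin ζ) (Fin ζ) ℂ) (hF : ∀ a, (F a).PosSemidef)
    (h : ∀ a, Sᴴ * W (P a) * S =
      Vᴴ * fromBlocks (P a ⊗ₖ (1 : Matrix (Fin α) (Fin α) ℂ)) 0 0
        (fromBlocks ((P a)ᵀ ⊗ₖ (1 : Matrix (Fin β) (Fin β) ℂ)) 0 0 (F a)) * V) :
    (∀ i j, V (Sum.inl i) j = 0) ∧ ∀ i j, V (Sum.inr (Sum.inl i)) j = 0 := by
  have hTS : (Sᴴ * W 1) * S = 1 := hS
  have hST : S * (Sᴴ * W 1) = 1 := mul_eq_one_comm.1 hTS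
  generalize Sᴴ * W 1 = T at hTS hST
  have key : ∀ a, fromBlocks (P a ⊗ₖ (1 : Matrix (Fin α) (Fin α) ℂ)) 0 0
        (fromBlocks ((P a)ᵀ ⊗ₖ (1 : Matrix (Fin β) (Fin β) ℂ)) 0 0 (F a)) *ᵥ
          ((V * T) *ᵥ ker a) = 0 := by
    intro a
    have hM := psd_fromBlocks ((P_psd a).kronecker (PosSemidef.one (n := Fin α)))
      (psd_fromBlocks ((P_psd a).transpose.kronecker (PosSemidef.one (n := Fin β))) (hF a))
    rw [← hM.dotProduct_mulVec_zero_iff]
    have h1 : (Sᴴ * W (P a) * S) *ᵥ (T *ᵥ ker a) = 0 := by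
      rw [mulVec_mulVec, mul_assoc, hST, mul_one, ← mulVec_mulVec, W_ker, mulVec_zero]
    rw [h a] at h1
    have h2 := congrArg (fun v => star (T *ᵥ ker a) ⬝ᵥ v) h1
    simp only [dotProduct_zero] at h2
    rw [← mulVec_mulVec, ← mulVec_mulVec, dotProduct_mulVec, ← star_mulVec] at h2
    rw [← mulVec_mulVec]
    exact h2
  have hV : V = (V * T) * S := by rw [Matrix.mul_assoc, hTS, Matrix.mul_one]
  have h1 : ∀ i j, (V * T) (Sum.inl i) j = 0 := by
    rintro ⟨i, b⟩ j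
    have := span_conj ((V * T) (Sum.inl (0, b))) ((V * T) (Sum.inl (1, b))) (fun a => by
      have h3 := congrFun (key a) (Sum.inl (0, b))
      generalize V * T = U at h3 ⊢
      change _ = (0 : ℂ) at h3
      rw [mulVec, dotProduct, Fintype.sum_sum_type] at h3
      simp [Fintype.sum_prod_type, one_apply, P] at h3
      simpa [mulVec] using h3)
    fin_cases i
    · exact congrFun this.1 j
    · exact congrFun this.2 j
  have h2 : ∀ i j, (V * T) (Sum.inr (Sum.inl i)) j = 0 := by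
    rintro ⟨i, b⟩ j
    have := span_self ((V * T) (Sum.inr (Sum.inl (0, b)))) ((V * T) (Sum.inr (Sum.inl (1, b))))
      (fun a => by
      have h3 := congrFun (key a) (Sum.inr (Sum.inl (0, b)))
      generalize V * T = U at h3 ⊢
      change _ = (0 : ℂ) at h3
      rw [mulVec, dotProduct, Fintype.sum_sum_type] at h3
      simp [Fintype.sum_prod_type, one_apply, P] at h3
      simpa [mulVec] using h3)
    fin_cases i
    · exact congrFun this.1 j
    · exact congrFun this.2 j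
  constructor
  · intro i j
    rw [hV, mul_apply]
    exact Finset.sum_eq_zero fun k _ => by rw [h1, zero_mul]
  · intro i j
    rw [hV, mul_apply]
    exact Finset.sum_eq_zero fun k _ => by rw [h2, zero_mul]

theorem Psi_sub (S : Matrix (Fin 4) (Fin 4) ℂ) (hS : Sᴴ * W 1 * S = 1) (t : ℝ)
    (X : Matrix (Fin 2) (Fin 2) ℂ) :
    Sᴴ * W (algebraMap ℝ _ t - X) * S = algebraMap ℝ _ t - Sᴴ * W X * S := by
  have e1 : (algebraMap ℝ (Matrix (Fin 2) (Fin 2) ℂ) t - X) = (t : ℂ) • (1 : Matrix _ _ ℂ) +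
      (-1 : ℂ) • X := by
    rw [Algebra.algebraMap_eq_smul_one, neg_one_smul, sub_eq_add_neg, Complex.coe_smul]
  rw [e1, W_add, W_smul, W_smul, mul_add, add_mul, mul_smul_comm, smul_mul_assoc, hS,
    mul_smul_comm, smul_mul_assoc, Algebra.algebraMap_eq_smul_one, neg_one_smul, sub_eq_add_neg,
    Complex.coe_smul]

open scoped Matrix.Norms.L2Operator MatrixOrder in
theorem Psi_norm (S : Matrix (Fin 4) (Fin 4) ℂ) (hS : Sᴴ * W 1 * S = 1)
    (X : Matrix (Fin 2) (Fin 2) ℂ) (hX : IsSelfAdjoint X) : ‖Sᴴ * W X * S‖ = ‖X‖ := by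
  have hY : IsSelfAdjoint (Sᴴ * W X * S) := by
    have h1 : (W X).IsHermitian := by
      show (W X)ᴴ = W X
      rw [W_conjTranspose]
      exact congrArg W hX
    exact isHermitian_conjTranspose_mul_mul S h1
  have hup : ∀ Z : Matrix (Fin 2) (Fin 2) ℂ, IsSelfAdjoint Z →
      Sᴴ * W Z * S ≤ algebraMap ℝ _ ‖Z‖ := by
    intro Z hZ
    have h1 : (algebraMap ℝ _ ‖Z‖ - Z).PosSemidef := Matrix.le_iff.1 hZ.le_algebraMap_norm_self
    rw [Matrix.le_iff, ← Psi_sub S hS]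
    exact (W_psd h1).conjTranspose_mul_mul_same S
  have hneg : Sᴴ * W (-X) * S = -(Sᴴ * W X * S) := by
    rw [← neg_one_smul ℂ X, W_smul, neg_one_smul, mul_neg, neg_mul]
  have hspec : ∀ t : ℝ, t ∈ spectrum ℝ X → t ∈ spectrum ℝ (Sᴴ * W X * S) := by
    intro t ht
    rw [spectrum.mem_iff, isUnit_iff_isUnit_det, isUnit_iff_ne_zero, not_not] at ht ⊢
    rw [← Psi_sub S hS, det_mul, det_mul, W_det _ ht, mul_zero, zero_mul]
  refine le_antisymm ?_ ?_
  · rcases CStarAlgebra.norm_or_neg_norm_mem_spectrum hY with h | h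
    · exact (le_algebraMap_iff_spectrum_le hY).1 (hup X hX) _ h
    · have h2 := hup (-X) hX.neg
      rw [hneg, norm_neg] at h2
      have h3 : -‖Sᴴ * W X * S‖ ∈ spectrum ℝ (-(-(Sᴴ * W X * S))) := by rwa [neg_neg]
      rw [← spectrum.neg_eq, Set.mem_neg, neg_neg] at h3
      exact (le_algebraMap_iff_spectrum_le hY.neg).1 h2 _ h3
  · rcases CStarAlgebra.norm_or_neg_norm_mem_spectrum hX with h | h
    · simpa using spectrum.norm_le_norm_of_mem (hspec _ h)
    · simpa using spectrum.norm_le_norm_of_mem (hspec _ h)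

end Pool.Agent.MP_2a866c_an.H83
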